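import Pool.Agent.H73.PHS.Stmts

set_option autoImplicit false

namespace Pool.PHS

theorem CRM_thm : CRMStmt := by
  intro E _ _ ι _ _ b v h
  set A : Matrix ι ι ℝ := b.toMatrix v with hA
  have h1 : ∀ j, b.det (Function.update v j h) = A.cramer (b.repr h) j := by
    intro j
    rw [Module.Basis.det_apply, Module.Basis.toMatrix_update, Matrix.cramer_apply]
  apply b.repr.injective
  ext i
  rw [map_sum, map_smul, Finsupp.smul_apply, Finsupp.finsetSum_apply]
  have h2 := congrFun (Matrix.mulVec_cramer A (b.repr h)) i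
  rw [Matrix.mulVec, dotProduct] at h2
  rw [Module.Basis.det_apply, ← hA, smul_eq_mul]
  rw [Pi.smul_apply, smul_eq_mul] at h2
  rw [← h2]
  apply Finset.sum_congr rfl
  intro j _
  rw [h1, map_smul, Finsupp.smul_apply, smul_eq_mul, mul_comm]
  rfl

end Pool.PHS
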